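import Pool.Agent.T6.H18.EL.Main
import Pool.Agent.T6.H18.EL.DIS
import Pool.Agent.T6.H18.EL.COD
import Pool.Agent.T6.H18.EL.PRF
import Pool.Agent.T6.H18.EL.CCT
import Pool.Agent.T6.H18.EL.ASY
import Pool.Agent.T6.H18.EL.VOL
import Pool.Agent.T6.H18.EL.FIN

/-!
# MP_def58e_co: thinnest eleven-neighbour packings inside the face-centred cubic packing

The least lower density of a nonempty eleven-neighbour packing of unit balls contained in the
face-centred cubic lattice packing is `12/13 · π/√18`; it is attained if a sublattice of index 13
is removed (a perfect code in the contact graph). In particular `δ₁₁ ≤ 12/13 · π/√18`.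
-/

set_option autoImplicit false

namespace Pool.Agent.Results.MP_def58e_co.InsideFcc

open Pool.Agent.T6.H18.EL in
theorem result :
    IsLeast {δ : ℝ | ∃ P ⊆ fcc, P.Nonempty ∧ ElevenNeighbour P ∧ lowerDensity P = δ}
      (12 / 13 * (Real.pi / √18)) :=
  main dis prf (fin dis cod (cct dis) (asy dis) (vol dis))

end Pool.Agent.Results.MP_def58e_co.InsideFcc
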