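import Pool.Agent.T6.H88.EN.Lower

/-!
# Eleven-neighbour packings of unit balls: `δ₁₁ ≥ 12 (7/44)³ > 0.048`

Eleven unit vectors with mutual angles at least 60 degrees have a member `v` with
`u · v > 7/30`, for every unit vector `u`.  So in an eleven-neighbour packing every point of space
is within distance `30/7` of a centre, and within distance `44/7` of twelve centres.
-/

set_option autoImplicit false

namespace Pool.Agent.Results.MP_def58e_co.LowerBound

open Pool.Agent.T6.H88.EN

/-- Every eleven-neighbour packing of unit balls in space has lower density at least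
`12 (7/44)³ = 0.0483...`, so the infimum `delta 11` of these densities is at least this number;
moreover every point of space is within distance `30/7` of a centre. -/
theorem result :
    (∀ C : Set E3, IsNeighbourPacking 11 C →
      (∀ c : E3, ∃ x ∈ C, dist x c ≤ 30 / 7) ∧ 12 * (7 / 44) ^ 3 ≤ lowerDensity C) ∧
      12 * (7 / 44) ^ 3 ≤ delta 11 :=
  ⟨fun C hC => ⟨fun c => by
    obtain ⟨p, hp, hmin⟩ := exists_nearest hC c
    exact ⟨p, hp, nearest_le hC hp c hmin⟩, lower hC⟩, delta_bounds.1⟩

end Pool.Agent.Results.MP_def58e_co.LowerBound
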